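import Pool.Agent.Helper80.Stack.Goals

/-!
# Node structures with at most `k` earlier neighbours have bounded queue number
-/

set_option autoImplicit false

namespace Pool.Agent.Helper39.Stk

open Pool.Agent.Helper80.Stk Classical

noncomputable section

/-! ### layers -/

/-- the layer of a node -/
def lay (Nm : ℕ → Finset ℕ) (hlt : ∀ n, ∀ m ∈ Nm n, m < n) (n : ℕ) : ℕ :=
  if h : (Nm n).Nonempty then
    1 + (Nm n).attach.inf' (Finset.attach_nonempty_iff.2 h) (fun m => lay Nm hlt m.1)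
  else 0
termination_by n
decreasing_by exact hlt n _ m.2

section layers

variable {Nm : ℕ → Finset ℕ} (hlt : ∀ n, ∀ m ∈ Nm n, m < n)

lemma lay_le {n m : ℕ} (hm : m ∈ Nm n) : lay Nm hlt n ≤ lay Nm hlt m + 1 := by
  have h : lay Nm hlt n = 1 + (Nm n).attach.inf' (Finset.attach_nonempty_iff.2 ⟨m, hm⟩)
      (fun m => lay Nm hlt m.1) := by
    conv_lhs => rw [lay]
    exact dif_pos ⟨m, hm⟩
  have h2 : (Nm n).attach.inf' (Finset.attach_nonempty_iff.2 ⟨m, hm⟩)
      (fun m => lay Nm hlt m.1) ≤ lay Nm hlt m :=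
    Finset.inf'_le (f := fun m : {x // x ∈ Nm n} => lay Nm hlt m.1) (Finset.mem_attach _ ⟨m, hm⟩)
  omega

lemma exists_lay {n : ℕ} (h : (Nm n).Nonempty) :
    ∃ m ∈ Nm n, lay Nm hlt n = lay Nm hlt m + 1 := by
  have h1 : lay Nm hlt n = 1 + (Nm n).attach.inf' (Finset.attach_nonempty_iff.2 h)
      (fun m => lay Nm hlt m.1) := by
    conv_lhs => rw [lay]
    exact dif_pos h
  obtain ⟨m, _, hm⟩ := Finset.exists_mem_eq_inf' (Finset.attach_nonempty_iff.2 h)
    (fun m : {x // x ∈ Nm n} => lay Nm hlt m.1)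
  exact ⟨m.1, m.2, by omega⟩

lemma lay_mono (hcl : ∀ n, ∀ a ∈ Nm n, ∀ b ∈ Nm n, NAdj Nm a b) :
    ∀ n, ∀ m ∈ Nm n, lay Nm hlt m ≤ lay Nm hlt n := by
  intro n
  induction n using Nat.strong_induction_on with
  | _ n ih =>
    intro m hm
    obtain ⟨m0, h0, e⟩ := exists_lay hlt ⟨m, hm⟩
    rcases hcl n m hm m0 h0 with h | h | h
    · subst h; omega
    · have := ih m0 (hlt n m0 h0) m h; omega
    · have := lay_le hlt h; omega

end layers

/-! ### roots -/

/-- the root of the component -/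
def root (Nm : ℕ → Finset ℕ) (hlt : ∀ n, ∀ m ∈ Nm n, m < n) (n : ℕ) : ℕ :=
  if h : (Nm n).Nonempty then root Nm hlt ((Nm n).min' h) else n
termination_by n
decreasing_by exact hlt n _ (Finset.min'_mem _ _)

section roots

variable {Nm : ℕ → Finset ℕ} (hlt : ∀ n, ∀ m ∈ Nm n, m < n)

lemma root_of_empty {n : ℕ} (h : Nm n = ∅) : root Nm hlt n = n := by
  rw [root]
  exact dif_neg (by rw [h]; exact Finset.not_nonempty_empty)

lemma root_of_nonempty {n : ℕ} (h : (Nm n).Nonempty) :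
    root Nm hlt n = root Nm hlt ((Nm n).min' h) := by
  conv_lhs => rw [root]
  exact dif_pos h

/-- induction principle -/
lemma root_ind (P : ℕ → ℕ → Prop) (h0 : ∀ n, Nm n = ∅ → P n n)
    (h1 : ∀ n m, m ∈ Nm n → (∀ a ∈ Nm n, m ≤ a) → P m (root Nm hlt m) → P n (root Nm hlt m)) :
    ∀ n, P n (root Nm hlt n) := by
  intro n
  induction n using Nat.strong_induction_on with
  | _ n ih =>
    rcases Finset.eq_empty_or_nonempty (Nm n) with h | h
    · rw [root_of_empty hlt h]; exact h0 n h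
    · rw [root_of_nonempty hlt h]
      exact h1 n _ (Finset.min'_mem _ _) (fun a ha => Finset.min'_le _ a ha)
        (ih _ (hlt n _ (Finset.min'_mem _ _)))

lemma root_le : ∀ n, root Nm hlt n ≤ n :=
  root_ind hlt (fun n r => r ≤ n) (fun _ _ => le_rfl) (fun n m hm _ h => h.trans (hlt n m hm).le)

lemma root_empty : ∀ n, Nm (root Nm hlt n) = ∅ :=
  root_ind hlt (fun _ r => Nm r = ∅) (fun _ h => h) (fun _ _ _ _ h => h)

lemma root_eq (hcl : ∀ n, ∀ a ∈ Nm n, ∀ b ∈ Nm n, NAdj Nm a b) :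
    ∀ n, ∀ m ∈ Nm n, root Nm hlt m = root Nm hlt n := by
  intro n
  induction n using Nat.strong_induction_on with
  | _ n ih =>
    intro m hm
    have hne : (Nm n).Nonempty := ⟨m, hm⟩
    rw [root_of_nonempty hlt hne]
    have h1 := Finset.min'_mem _ hne
    have h2 : (Nm n).min' hne ≤ m := Finset.min'_le _ m hm
    rcases hcl n m hm _ h1 with h | h | h
    · rw [← h]
    · exact absurd (hlt _ _ h) (not_lt.2 h2)
    · exact (ih m (hlt n m hm) _ h).symm

end roots

/-! ### the order -/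

section order

variable {k : ℕ}

/-- the `i`-th earlier neighbour -/
def nth (Nm : ℕ → Finset ℕ) (r i : ℕ) : Option ℕ := ((Nm r).sort (· ≤ ·))[i]?

lemma nth_mem {Nm : ℕ → Finset ℕ} {r i a : ℕ} (h : nth Nm r i = some a) : a ∈ Nm r := by
  have := List.mem_of_getElem? h
  exact (Finset.mem_sort (· ≤ ·)).1 this

lemma nth_lt {Nm : ℕ → Finset ℕ} {r i j a b : ℕ} (hij : i < j) (h : nth Nm r i = some a)
    (h' : nth Nm r j = some b) : a < b := by
  unfold nth at h h'
  obtain ⟨hi, ea⟩ := List.getElem?_eq_some_iff.1 h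
  obtain ⟨hj, eb⟩ := List.getElem?_eq_some_iff.1 h'
  rw [← ea, ← eb]
  exact (Finset.sortedLT_sort (Nm r)).getElem_lt_getElem_of_lt hij

lemma exists_nth {Nm : ℕ → Finset ℕ} {r a K : ℕ} (hK : (Nm r).card ≤ K) (h : a ∈ Nm r) :
    ∃ i : Fin K, nth Nm r i = some a := by
  have h1 : a ∈ (Nm r).sort (· ≤ ·) := (Finset.mem_sort (· ≤ ·)).2 h
  obtain ⟨i, hi, e⟩ := List.getElem_of_mem h1
  rw [Finset.length_sort] at hi
  refine ⟨⟨i, by omega⟩, ?_⟩
  unfold nth
  rw [List.getElem?_eq_some_iff]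
  exact ⟨by rw [Finset.length_sort]; exact hi, e⟩

/-- the list of values -/
def vec (k : ℕ) (Nm : ℕ → Finset ℕ) (f : ℕ → ℕ) (r : ℕ) : Fin (k + 1) → ℕ :=
  fun i => ((nth Nm r i).map f).getD 0

/-- the keys -/
abbrev KT (k : ℕ) : Type := (Lex (Fin (k + 1) → ℕ)) ×ₗ (ℕ ×ₗ ℕ)

/-- the key of a node -/
def key (k : ℕ) (Nm : ℕ → Finset ℕ) (rt s0 f : ℕ → ℕ) (n : ℕ) : KT k :=
  toLex (toLex (vec k Nm f (rt n)), toLex (s0 (rt n), s0 n))

/-- one step of the construction -/
def step (k M : ℕ) (Nm : ℕ → Finset ℕ) (l rt s0 f : ℕ → ℕ) (n : ℕ) : ℕ :=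
  l n * (M + 1) + ((Finset.range M).filter
    (fun n' => l n' = l n ∧ key k Nm rt s0 f n' < key k Nm rt s0 f n)).card

/-- all steps -/
def stp (k M : ℕ) (Nm : ℕ → Finset ℕ) (l rt s0 : ℕ → ℕ) : ℕ → ℕ → ℕ
  | 0 => step k M Nm l rt s0 (fun _ => 0)
  | L + 1 => step k M Nm l rt s0 (stp k M Nm l rt s0 L)

/-- the order -/
def ord (k M : ℕ) (Nm : ℕ → Finset ℕ) (l rt s0 : ℕ → ℕ) (n : ℕ) : ℕ :=
  stp k M Nm l rt s0 (l n) n

variable {M : ℕ} {Nm : ℕ → Finset ℕ} {l rt s0 : ℕ → ℕ}

lemma vec_congr {f g : ℕ → ℕ} {r : ℕ} (h : ∀ m ∈ Nm r, f m = g m) : vec k Nm f r = vec k Nm g r := by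
  funext i
  unfold vec
  rcases hx : nth Nm r i with _ | a
  · rfl
  · show f a = g a
    exact h a (nth_mem hx)

lemma ord_eq (h1 : ∀ n, ∀ m ∈ Nm (rt n), l m + 1 = l n) (n : ℕ) :
    ord k M Nm l rt s0 n = step k M Nm l rt s0 (ord k M Nm l rt s0) n := by
  unfold ord
  have key_congr : ∀ (f g : ℕ → ℕ) (n' : ℕ), (∀ m, l m + 1 = l n → f m = g m) → l n' = l n →
      key k Nm rt s0 f n' = key k Nm rt s0 g n' := by
    intro f g n' hfg hn'
    unfold key
    rw [vec_congr (f := f) (g := g) fun m hm => hfg m (by rw [h1 n' m hm, hn'])]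
  have hstep : ∀ f g : ℕ → ℕ, (∀ m, l m + 1 = l n → f m = g m) →
      step k M Nm l rt s0 f n = step k M Nm l rt s0 g n := by
    intro f g hfg
    unfold step
    congr 2
    refine Finset.filter_congr fun n' _ => and_congr_right fun hn' => ?_
    rw [key_congr f g n' hfg hn', key_congr f g n hfg rfl]
  rcases hL : l n with _ | L
  · exact hstep _ _ fun m hm => by omega
  · refine hstep _ _ fun m hm => ?_
    have e : l m = L := by omega
    rw [e]

/-- the rank in the layer -/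
def rnk (k M : ℕ) (Nm : ℕ → Finset ℕ) (l rt s0 f : ℕ → ℕ) (n : ℕ) : ℕ :=
  ((Finset.range M).filter
    (fun n' => l n' = l n ∧ key k Nm rt s0 f n' < key k Nm rt s0 f n)).card

lemma rnk_le (f : ℕ → ℕ) (n : ℕ) : rnk k M Nm l rt s0 f n ≤ M := by
  unfold rnk
  exact (Finset.card_filter_le _ _).trans (by rw [Finset.card_range])

lemma rnk_lt (f : ℕ → ℕ) {n n' : ℕ} (hn : n < M) (hl : l n = l n')
    (h : key k Nm rt s0 f n < key k Nm rt s0 f n') :
    rnk k M Nm l rt s0 f n < rnk k M Nm l rt s0 f n' := by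
  unfold rnk
  refine Finset.card_lt_card ?_
  rw [Finset.ssubset_iff_of_subset]
  · refine ⟨n, ?_, ?_⟩
    · rw [Finset.mem_filter]
      exact ⟨Finset.mem_range.2 hn, hl, h⟩
    · rw [Finset.mem_filter]
      exact fun h2 => lt_irrefl _ h2.2.2
  · intro a ha
    rw [Finset.mem_filter] at ha ⊢
    exact ⟨ha.1, ha.2.1.trans hl, ha.2.2.trans h⟩

lemma rnk_congr (f : ℕ → ℕ) {n n' : ℕ} (hl : l n = l n')
    (h : key k Nm rt s0 f n = key k Nm rt s0 f n') :
    rnk k M Nm l rt s0 f n = rnk k M Nm l rt s0 f n' := by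
  unfold rnk
  rw [hl, h]

lemma ord_eq' (h1 : ∀ n, ∀ m ∈ Nm (rt n), l m + 1 = l n) (n : ℕ) :
    ord k M Nm l rt s0 n = l n * (M + 1) + rnk k M Nm l rt s0 (ord k M Nm l rt s0) n :=
  ord_eq h1 n

lemma ord_lt_of_lay (h1 : ∀ n, ∀ m ∈ Nm (rt n), l m + 1 = l n) {n n' : ℕ} (h : l n < l n') :
    ord k M Nm l rt s0 n < ord k M Nm l rt s0 n' := by
  rw [ord_eq' h1 n, ord_eq' h1 n']
  have h2 := rnk_le (k := k) (M := M) (Nm := Nm) (l := l) (rt := rt) (s0 := s0)
    (ord k M Nm l rt s0) n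
  have h3 : (l n + 1) * (M + 1) ≤ l n' * (M + 1) := Nat.mul_le_mul_right _ h
  have h4 : (l n + 1) * (M + 1) = l n * (M + 1) + (M + 1) := by ring
  omega

lemma lay_le_of_ord (h1 : ∀ n, ∀ m ∈ Nm (rt n), l m + 1 = l n) {n n' : ℕ}
    (h : ord k M Nm l rt s0 n < ord k M Nm l rt s0 n') : l n ≤ l n' := by
  by_contra hc
  have := ord_lt_of_lay (k := k) (M := M) (s0 := s0) h1 (not_le.1 hc)
  omega

lemma ord_lt_iff (h1 : ∀ n, ∀ m ∈ Nm (rt n), l m + 1 = l n) {n n' : ℕ} (hn : n < M)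
    (hn' : n' < M) (hl : l n = l n') :
    ord k M Nm l rt s0 n < ord k M Nm l rt s0 n' ↔
      key k Nm rt s0 (ord k M Nm l rt s0) n < key k Nm rt s0 (ord k M Nm l rt s0) n' := by
  rw [ord_eq' h1 n, ord_eq' h1 n', hl]
  constructor
  · intro h
    by_contra hc
    rcases (not_lt.1 hc).lt_or_eq with h2 | h2
    · have := rnk_lt (M := M) (ord k M Nm l rt s0) hn' hl.symm h2
      omega
    · have := rnk_congr (M := M) (ord k M Nm l rt s0) hl.symm h2
      omega
  · intro h
    have := rnk_lt (M := M) (ord k M Nm l rt s0) hn hl h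
    omega

lemma ord_le_iff (h1 : ∀ n, ∀ m ∈ Nm (rt n), l m + 1 = l n) {n n' : ℕ} (hn : n < M)
    (hn' : n' < M) (hl : l n = l n') :
    ord k M Nm l rt s0 n ≤ ord k M Nm l rt s0 n' ↔
      key k Nm rt s0 (ord k M Nm l rt s0) n ≤ key k Nm rt s0 (ord k M Nm l rt s0) n' := by
  rw [← not_lt, ← not_lt, ord_lt_iff h1 hn' hn hl.symm]

lemma ord_inj (h1 : ∀ n, ∀ m ∈ Nm (rt n), l m + 1 = l n)
    (hs0 : ∀ a < M, ∀ b < M, s0 a = s0 b → a = b) :
    ∀ a < M, ∀ b < M, ord k M Nm l rt s0 a = ord k M Nm l rt s0 b → a = b := by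
  intro a ha b hb h
  have hl : l a = l b := by
    rcases lt_trichotomy (l a) (l b) with h2 | h2 | h2
    · have := ord_lt_of_lay (k := k) (M := M) (s0 := s0) h1 h2; omega
    · exact h2
    · have := ord_lt_of_lay (k := k) (M := M) (s0 := s0) h1 h2; omega
  have h2 : key k Nm rt s0 (ord k M Nm l rt s0) a = key k Nm rt s0 (ord k M Nm l rt s0) b :=
    le_antisymm ((ord_le_iff h1 ha hb hl).1 h.le) ((ord_le_iff h1 hb ha hl.symm).1 h.ge)
  refine hs0 a ha b hb ?_
  have h3 := congrArg (fun z : KT k => (ofLex (ofLex z).2).2) h2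
  exact h3

lemma key_lt_iff (f : ℕ → ℕ) (n n' : ℕ) : key k Nm rt s0 f n < key k Nm rt s0 f n' ↔
    (toLex (vec k Nm f (rt n)) < toLex (vec k Nm f (rt n')) ∨
      (vec k Nm f (rt n) = vec k Nm f (rt n') ∧ (s0 (rt n) < s0 (rt n') ∨
        (s0 (rt n) = s0 (rt n') ∧ s0 n < s0 n')))) := by
  unfold key
  rw [Prod.Lex.toLex_lt_toLex, Prod.Lex.toLex_lt_toLex]
  rfl

/-- nodes with the same root -/
lemma key_same (f : ℕ → ℕ) {n n' : ℕ} (hr : rt n = rt n') :
    key k Nm rt s0 f n < key k Nm rt s0 f n' ↔ s0 n < s0 n' := by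
  rw [key_lt_iff, hr]
  constructor
  · rintro (h | ⟨_, h | ⟨_, h⟩⟩)
    · exact absurd h (lt_irrefl _)
    · exact absurd h (lt_irrefl _)
    · exact h
  · exact fun h => Or.inr ⟨rfl, Or.inr ⟨rfl, h⟩⟩

/-- nodes with different roots -/
lemma key_diff (f : ℕ → ℕ) {n n' m m' : ℕ} (hr : s0 (rt n) ≠ s0 (rt n')) (hm : rt m = rt n)
    (hm' : rt m' = rt n') (h : key k Nm rt s0 f n < key k Nm rt s0 f n') :
    key k Nm rt s0 f m < key k Nm rt s0 f m' := by
  rw [key_lt_iff] at h ⊢
  rw [hm, hm']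
  rcases h with h | ⟨h1, h | ⟨h2, _⟩⟩
  · exact Or.inl h
  · exact Or.inr ⟨h1, Or.inl h⟩
  · exact absurd h2 hr

lemma key_vec (f : ℕ → ℕ) {n n' : ℕ} (h : key k Nm rt s0 f n < key k Nm rt s0 f n') :
    vec k Nm f (rt n) = vec k Nm f (rt n') ∨ ∃ i0 : Fin (k + 1),
      (∀ j < i0, vec k Nm f (rt n) j = vec k Nm f (rt n') j) ∧
        vec k Nm f (rt n) i0 < vec k Nm f (rt n') i0 := by
  rw [key_lt_iff] at h
  rcases h with h | ⟨h1, _⟩
  · exact Or.inr h
  · exact Or.inl h1

/-! ### colours -/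

/-- colours of the edges between the earlier neighbours -/
def tcol {q : ℕ} (Nm : ℕ → Finset ℕ) (c0 : ℕ → ℕ → Fin q) (k r : ℕ) :
    Fin (k + 1) → Fin (k + 1) → Option (Fin q) := fun i j =>
  match nth Nm r i, nth Nm r j with
  | some a, some b => some (c0 b a)
  | _, _ => none

lemma tcol_some {q : ℕ} {c0 : ℕ → ℕ → Fin q} {r : ℕ} {i j : Fin (k + 1)} {a b : ℕ}
    (h : nth Nm r i = some a) (h' : nth Nm r j = some b) : tcol Nm c0 k r i j = some (c0 b a) := by
  unfold tcol
  rw [h, h']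

lemma tcol_exists {q : ℕ} {c0 : ℕ → ℕ → Fin q} {r : ℕ} {i j : Fin (k + 1)} {x : Fin q}
    (h : tcol Nm c0 k r i j = some x) :
    ∃ a b, nth Nm r i = some a ∧ nth Nm r j = some b ∧ c0 b a = x := by
  unfold tcol at h
  rcases ha : nth Nm r i with _ | a
  · rw [ha] at h; simp at h
  · rcases hb : nth Nm r j with _ | b
    · rw [ha, hb] at h; simp at h
    · rw [ha, hb] at h
      refine ⟨a, b, rfl, rfl, ?_⟩
      simpa using h

/-- the position of an earlier neighbour -/
def idx (Nm : ℕ → Finset ℕ) (k r m : ℕ) : Fin (k + 1) :=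
  if h : ∃ i : Fin (k + 1), nth Nm r i = some m then h.choose else 0

lemma nth_idx {r m : ℕ} (h : ∃ i : Fin (k + 1), nth Nm r i = some m) :
    nth Nm r (idx Nm k r m) = some m := by
  unfold idx
  rw [dif_pos h]
  exact h.choose_spec

/-- the type of colours -/
abbrev CT (k q : ℕ) : Type :=
  Fin q ⊕ (Fin (k + 1) × (Fin (k + 1) → Fin (k + 1) → Option (Fin q)))

/-- the colour -/
def colr {q : ℕ} (k : ℕ) (Nm : ℕ → Finset ℕ) (l rt : ℕ → ℕ) (c0 : ℕ → ℕ → Fin q) (n m : ℕ) :
    CT k q :=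
  if l m = l n then Sum.inl (c0 n m) else Sum.inr (idx Nm k (rt n) m, tcol Nm c0 k (rt n))

end order

theorem queue_step (k q0 : ℕ) (hq0 : ∀ (M : ℕ) (Nm : ℕ → Finset ℕ), NStr k Nm →
    ∃ (s : ℕ → ℕ) (col : ℕ → ℕ → Fin q0), (∀ a < M, ∀ b < M, s a = s b → a = b) ∧
    ∀ n m n' m', n < M → n' < M → m ∈ Nm n → m' ∈ Nm n' → col n m = col n' m' →
      s n < s n' → s m ≤ s m') (M : ℕ) (Nm : ℕ → Finset ℕ) (hN : NStr (k + 1) Nm) :
    ∃ (s : ℕ → ℕ) (col : ℕ → ℕ → CT k q0), (∀ a < M, ∀ b < M, s a = s b → a = b) ∧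
    ∀ n m n' m', n < M → n' < M → m ∈ Nm n → m' ∈ Nm n' → col n m = col n' m' →
      s n < s n' → s m ≤ s m' := by
  obtain ⟨hlt, hcard, hcl⟩ := hN
  set l : ℕ → ℕ := lay Nm hlt with hl
  have L1 : ∀ n, ∀ m ∈ Nm n, l n ≤ l m + 1 := fun n m hm => lay_le hlt hm
  have L2 : ∀ n, ∀ m ∈ Nm n, l m ≤ l n := fun n m hm => lay_mono hlt hcl n m hm
  -- the neighbours in the same layer
  set Nm' : ℕ → Finset ℕ := fun n => (Nm n).filter (fun m => l m = l n) with hNm'
  have mem' : ∀ n m, m ∈ Nm' n ↔ m ∈ Nm n ∧ l m = l n := fun n m => by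
    rw [hNm']; exact Finset.mem_filter
  have hlt' : ∀ n, ∀ m ∈ Nm' n, m < n := fun n m hm => hlt n m ((mem' n m).1 hm).1
  have hadj : ∀ a b, NAdj Nm a b → l a = l b → NAdj Nm' a b := by
    intro a b h e
    rcases h with h | h | h
    · exact Or.inl h
    · exact Or.inr (Or.inl ((mem' _ _).2 ⟨h, e⟩))
    · exact Or.inr (Or.inr ((mem' _ _).2 ⟨h, e.symm⟩))
  have hcl' : ∀ n, ∀ a ∈ Nm' n, ∀ b ∈ Nm' n, NAdj Nm' a b := by
    intro n a ha b hb
    rw [mem'] at ha hb
    exact hadj a b (hcl n a ha.1 b hb.1) (ha.2.trans hb.2.symm)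
  have hN' : NStr k Nm' := by
    refine ⟨hlt', fun n => ?_, hcl'⟩
    rcases Finset.eq_empty_or_nonempty (Nm n) with h | h
    · have : Nm' n = ∅ := by
        rw [Finset.eq_empty_iff_forall_notMem]
        intro m hm
        rw [mem', h] at hm
        exact Finset.notMem_empty _ hm.1
      rw [this, Finset.card_empty]
      exact Nat.zero_le _
    · obtain ⟨m0, hm0, e⟩ := exists_lay hlt h
      have h1 : Nm' n ⊂ Nm n := by
        rw [Finset.ssubset_iff_of_subset (fun m hm => ((mem' n m).1 hm).1)]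
        refine ⟨m0, hm0, fun h2 => ?_⟩
        have h3 := ((mem' n m0).1 h2).2
        have e' : l n = l m0 + 1 := e
        omega
      have h2 := Finset.card_lt_card h1
      have h3 := hcard n
      omega
  obtain ⟨s0, c0, hs0, hmon0⟩ := hq0 M Nm' hN'
  -- roots
  set rt : ℕ → ℕ := root Nm' hlt' with hrt
  have R1 : ∀ n, rt n ≤ n := root_le hlt'
  have R2 : ∀ n, l (rt n) = l n :=
    root_ind hlt' (fun n r => l r = l n) (fun n _ => rfl)
      (fun n m hm _ h => h.trans ((mem' n m).1 hm).2)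
  have R3 : ∀ n, ∀ m ∈ Nm' n, rt m = rt n := root_eq hlt' hcl'
  have R4 : ∀ n, ∀ m, m ∈ Nm n → l m + 1 = l n → m ∈ Nm (rt n) := by
    refine root_ind hlt' (fun n r => ∀ m, m ∈ Nm n → l m + 1 = l n → m ∈ Nm r)
      (fun n _ m hm _ => hm) (fun n m1 hm1 _ ih m hm e => ?_)
    rw [mem'] at hm1
    rcases hcl n m hm m1 hm1.1 with h | h | h
    · rw [h] at e
      omega
    · exact ih m h (by omega)
    · have := L2 _ _ h
      omega
  have R5 : ∀ n, Nm' (rt n) = ∅ := root_empty hlt'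
  have R6 : ∀ n, ∀ m ∈ Nm (rt n), l m + 1 = l n := by
    intro n m hm
    have h1 := L1 _ _ hm
    have h2 := L2 _ _ hm
    have h3 : l m ≠ l (rt n) := by
      intro h
      have h4 : m ∈ Nm' (rt n) := (mem' _ _).2 ⟨hm, h⟩
      rw [R5] at h4
      exact Finset.notMem_empty _ h4
    have h4 := R2 n
    omega
  set s : ℕ → ℕ := ord k M Nm l rt s0 with hs
  have hinj := ord_inj (k := k) (M := M) (s0 := s0) R6 hs0
  -- edges in a layer
  have P1 : ∀ n m n' m', n < M → n' < M → m ∈ Nm' n → m' ∈ Nm' n' → c0 n m = c0 n' m' →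
      s n < s n' → s m ≤ s m' := by
    intro n m n' m' hn hn' hm hm' hc hlt2
    have hmM : m < M := (hlt' n m hm).trans hn
    have hmM' : m' < M := (hlt' n' m' hm').trans hn'
    have e1 := ((mem' n m).1 hm).2
    have e2 := ((mem' n' m').1 hm').2
    have h1 := lay_le_of_ord (k := k) (M := M) (s0 := s0) R6 hlt2
    rcases h1.lt_or_eq with h2 | h2
    · exact (ord_lt_of_lay (k := k) (M := M) (s0 := s0) R6 (by omega)).le
    · have h3 := (ord_lt_iff R6 hn hn' h2).1 hlt2
      rw [hs, ord_le_iff R6 hmM hmM' (by omega)]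
      by_cases hr : rt n = rt n'
      · rw [key_same _ hr] at h3
        have h4 := hmon0 n m n' m' hn hn' hm hm' hc h3
        rw [← not_lt, key_same _ (by rw [R3 n m hm, R3 n' m' hm', hr])]
        exact not_lt.2 h4
      · refine (key_diff _ (fun h => hr (hs0 _ ((R1 n).trans_lt hn) _ ((R1 n').trans_lt hn') h))
          (R3 n m hm) (R3 n' m' hm') h3).le
  refine ⟨s, colr k Nm l rt c0, hinj, ?_⟩
  intro n m n' m' hn hn' hm hm' hc hlt2
  have h1 := lay_le_of_ord (k := k) (M := M) (s0 := s0) R6 hlt2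
  unfold colr at hc
  by_cases e1 : l m = l n
  · by_cases e2 : l m' = l n'
    · rw [if_pos e1, if_pos e2] at hc
      exact P1 n m n' m' hn hn' ((mem' _ _).2 ⟨hm, e1⟩) ((mem' _ _).2 ⟨hm', e2⟩)
        (Sum.inl.inj hc) hlt2
    · rw [if_pos e1, if_neg e2] at hc
      exact absurd hc (by simp)
  · by_cases e2 : l m' = l n'
    · rw [if_neg e1, if_pos e2] at hc
      exact absurd hc (by simp)
    · rw [if_neg e1, if_neg e2] at hc
      have hc' := Sum.inr.inj hc
      have hi : idx Nm k (rt n) m = idx Nm k (rt n') m' := congrArg Prod.fst hc'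
      have ht : tcol Nm c0 k (rt n) = tcol Nm c0 k (rt n') := congrArg Prod.snd hc'
      have f1 : l m + 1 = l n := by
        have := L1 n m hm; have := L2 n m hm; omega
      have f2 : l m' + 1 = l n' := by
        have := L1 n' m' hm'; have := L2 n' m' hm'; omega
      rcases h1.lt_or_eq with h2 | h2
      · exact (ord_lt_of_lay (k := k) (M := M) (s0 := s0) R6 (by omega)).le
      · have g1 := nth_idx (k := k) (exists_nth (hcard (rt n)) (R4 n m hm f1))
        have g2 := nth_idx (k := k) (exists_nth (hcard (rt n')) (R4 n' m' hm' f2))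
        have h3 := (ord_lt_iff R6 hn hn' h2).1 hlt2
        -- the values at the position
        have v1 : vec k Nm s (rt n) (idx Nm k (rt n) m) = s m := by
          unfold vec; rw [g1]; rfl
        have v2 : vec k Nm s (rt n') (idx Nm k (rt n) m) = s m' := by
          unfold vec; rw [hi, g2]; rfl
        rw [← v1, ← v2]
        generalize idx Nm k (rt n) m = i
        rcases key_vec s h3 with h4 | ⟨i0, h4, h5⟩
        · rw [h4]
        · rcases lt_trichotomy i i0 with h6 | h6 | h6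
          · exact (h4 i h6).le
          · rw [h6]; exact h5.le
          · by_contra hcon
            rw [not_le] at hcon
            -- members at the positions
            have hb' : ∃ b', nth Nm (rt n') i0 = some b' := by
              rcases hx : nth Nm (rt n') i0 with _ | b'
              · unfold vec at h5
                rw [hx] at h5
                exact absurd h5 (Nat.not_lt_zero _)
              · exact ⟨b', rfl⟩
            have ha : ∃ a, nth Nm (rt n) i = some a := by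
              rcases hx : nth Nm (rt n) i with _ | a
              · unfold vec at hcon
                rw [hx] at hcon
                exact absurd hcon (Nat.not_lt_zero _)
              · exact ⟨a, rfl⟩
            obtain ⟨b', hb'⟩ := hb'
            obtain ⟨a, ha⟩ := ha
            have t1 : tcol Nm c0 k (rt n) i i = some (c0 a a) := tcol_some ha ha
            rw [ht] at t1
            obtain ⟨a', _, ha', _, _⟩ := tcol_exists t1
            have t2 : tcol Nm c0 k (rt n') i0 i0 = some (c0 b' b') := tcol_some hb' hb'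
            rw [← ht] at t2
            obtain ⟨b, _, hb, _, _⟩ := tcol_exists t2
            have t3 : tcol Nm c0 k (rt n) i0 i = some (c0 a b) := tcol_some hb ha
            have t4 : tcol Nm c0 k (rt n') i0 i = some (c0 a' b') := tcol_some hb' ha'
            rw [ht, t4] at t3
            have t5 : c0 a' b' = c0 a b := Option.some.inj t3
            have w1 : ∀ (N x y : ℕ), x ∈ Nm (rt N) → y ∈ Nm (rt N) → x < y → x ∈ Nm' y := by
              intro N x y hx hy hxy
              have e3 := R6 N x hx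
              have e4 := R6 N y hy
              rcases hadj x y (hcl (rt N) x hx y hy) (by omega) with h | h | h
              · omega
              · exact h
              · have := hlt' _ _ h; omega
            have i0i : (i0 : ℕ) < i := h6
            have u1 : b ∈ Nm' a := w1 n b a (nth_mem hb) (nth_mem ha) (nth_lt i0i hb ha)
            have u2 : b' ∈ Nm' a' := w1 n' b' a' (nth_mem hb') (nth_mem ha') (nth_lt i0i hb' ha')
            have q1 : vec k Nm s (rt n) i = s a := by unfold vec; rw [ha]; rfl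
            have q2 : vec k Nm s (rt n') i = s a' := by unfold vec; rw [ha']; rfl
            have q3 : vec k Nm s (rt n) i0 = s b := by unfold vec; rw [hb]; rfl
            have q4 : vec k Nm s (rt n') i0 = s b' := by unfold vec; rw [hb']; rfl
            rw [q1, q2] at hcon
            rw [q3, q4] at h5
            have haM : a < M := ((hlt _ _ (nth_mem ha)).trans_le (R1 n)).trans hn
            have haM' : a' < M := ((hlt _ _ (nth_mem ha')).trans_le (R1 n')).trans hn'
            have := P1 a' b' a b haM' haM u2 u1 t5 hcon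
            omega

theorem pf_StmtQueue : StmtQueue := by
  intro k
  induction k with
  | zero =>
    refine ⟨1, fun M Nm hN => ⟨id, fun _ _ => 0, fun a _ b _ h => h, ?_⟩⟩
    intro n m n' m' _ _ hm
    have h1 : Nm n = ∅ := Finset.card_eq_zero.1 (Nat.le_zero.1 (hN.2.1 n))
    rw [h1] at hm
    exact absurd hm (Finset.notMem_empty _)
  | succ k ih =>
    obtain ⟨q0, hq0⟩ := ih
    let e := Fintype.equivFin (CT k q0)
    refine ⟨Fintype.card (CT k q0), fun M Nm hN => ?_⟩
    obtain ⟨s, col, h1, h2⟩ := queue_step k q0 hq0 M Nm hN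
    exact ⟨s, fun n m => e (col n m), h1, fun n m n' m' a1 a2 a3 a4 a5 =>
      h2 n m n' m' a1 a2 a3 a4 (e.injective a5)⟩

end

end Pool.Agent.Helper39.Stk
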